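import Pool.Agent.H978D.Top

namespace Pool.Agent.Results.MP_e9218d_nt.BeyondPower

open Pool.Agent.MPe9218d

/-- For every `s ≥ 4` and every modulus `M ≥ 2 ^ s + 2` there are no positive integers
`b_1, ..., b_M` for which the identity holds. -/
theorem result (M s : ℕ) (b : ℕ → ℕ) (hs : 4 ≤ s) (hM : 2 ^ s + 2 ≤ M)
    (hb : ∀ j, 1 ≤ j → j ≤ M → 1 ≤ b j) : ¬ Identity M s b :=
  Pool.Agent.H978D.beyond hs hM hb

end Pool.Agent.Results.MP_e9218d_nt.BeyondPower
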