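import Pool.Agent.H978D.TopR

namespace Pool.Agent.Results.MP_e9218d_nt.LowerHalf

open Pool.Agent.MPe9218d

/-- Let `2 ^ (s - 1) < M < 3 * 2 ^ (s - 2)`, let `2 ^ s - M` have at least three ones in binary
and let `M` have at least six ones in binary.  Then there are no positive integers
`b_1, ..., b_M` for which the identity holds. -/
theorem result (M s : ℕ) (b : ℕ → ℕ) (hs : 2 ≤ s) (h1 : 2 ^ (s - 1) < M)
    (h2 : M < 3 * 2 ^ (s - 2)) (h3 : 3 ≤ (Nat.digits 2 (2 ^ s - M)).sum)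
    (h6 : 6 ≤ (Nat.digits 2 M).sum)
    (hb : ∀ j, 1 ≤ j → j ≤ M → 1 ≤ b j) : ¬ Identity M s b :=
  Pool.Agent.H978D.lower_half' hs h1 h2 h3 h6 hb

end Pool.Agent.Results.MP_e9218d_nt.LowerHalf
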