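import Pool.Agent.H978D.Top

namespace Pool.Agent.Results.MP_e9218d_nt.ThreeOnes

open Pool.Agent.MPe9218d

/-- Let `3 * 2 ^ (s - 2) < M < 2 ^ s` and let `2 ^ s - M` have at least three ones in binary
(the sum of its binary digits is at least `3`). Then there are no positive integers
`b_1, ..., b_M` for which the identity holds. -/
theorem result (M s : ℕ) (b : ℕ → ℕ) (hs : 2 ≤ s) (hM : 3 * 2 ^ (s - 2) < M)
    (hpc : 3 ≤ (Nat.digits 2 (2 ^ s - M)).sum)
    (hb : ∀ j, 1 ≤ j → j ≤ M → 1 ≤ b j) : ¬ Identity M s b :=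
  Pool.Agent.H978D.between hs hM hpc hb

end Pool.Agent.Results.MP_e9218d_nt.ThreeOnes
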